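import Mathlib
import Pool.Agent.Run7.h683.OB.N7

set_option autoImplicit false

/-!
# One base for all algebraic numbers of small height

For almost all bases `b`, all the real algebraic irrational numbers of degree at most `D` and height
at most `exp ((log b) ^ d)` have, in the same base `b`, digits which follow the normal law up to the
place `(log b) ^ (4 d)`; and so have all families of such numbers jointly.
-/

namespace Pool.Agent.Results.MP_5b6025_nt.OneBaseForAll

open Filter Polynomial

/-- the digit at the place `j ≥ 1` after the point in the base `b` expansion of `y` -/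
noncomputable def digit (b : ℕ) (y : ℝ) (j : ℕ) : ℕ := (⌊y * (b : ℝ) ^ j⌋ % (b : ℤ)).toNat

/-- the possible digits `0, …, b - 1` are divided into `q` classes of consecutive digits, numbered
`0, …, q - 1`: the digit `u` is in the class `w` when `w b / q ≤ u < (w + 1) b / q` -/
def part (q b u : ℕ) : ℕ := q * u / b

/-- the numbers `x i` are roots of nonzero integer polynomials of degree at most `D` with coefficients
at most `Y` in absolute value, and they are, together with `1`, linearly independent over `ℚ` (for
`r = 1`: the number is irrational) -/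
def Family {r : ℕ} (D : ℕ) (Y : ℝ) (x : Fin r → ℝ) : Prop :=
  (∀ i, ∃ P : ℤ[X], P ≠ 0 ∧ P.natDegree ≤ D ∧ (∀ j, |(P.coeff j : ℝ)| ≤ Y) ∧ aeval (x i) P = 0) ∧
  ∀ (m : ℤ) (g : Fin r → ℤ), (m : ℝ) + ∑ i, (g i : ℝ) * x i = 0 → g = 0

/-- the number of the places `s + 2` with `s < K` at which, in base `b`, the classes of the digits of
the numbers `x i` spell the word `v`: the class of the digit of `x i` at the place `s + 2 + t` is
`v i t` for all `i` and `t < L` -/
noncomputable def occurrences {r L q : ℕ} (x : Fin r → ℝ) (b K : ℕ) (v : Fin r → Fin L → Fin q) :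
    ℕ :=
  {s : ℕ | s < K ∧ ∀ (i : Fin r) (t : Fin L),
    part q b (digit b (x i) (s + (t : ℕ) + 2)) = v i t}.ncard

/-- the base `b` is good: for ALL families `x` of `r` numbers of degree at most `D` and height at most
`exp ((log b) ^ d)`, all words `v` of length `L` (arrays of `r × L` classes) and all `K` between
`(log b) ^ (2 d)` and `(log b) ^ (4 d)`, the word `v` stands at `K / q ^ (r L)` of the first `K` places
from the second place on, with an error of at most `ε K` -/
def Good (d : ℝ) (D r q L : ℕ) (ε : ℝ) (b : ℕ) : Prop :=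
  ∀ x : Fin r → ℝ, Family D (Real.exp (Real.log b ^ d)) x →
    ∀ (v : Fin r → Fin L → Fin q) (K : ℕ), Real.log b ^ (2 * d) ≤ K → (K : ℝ) ≤ Real.log b ^ (4 * d) →
      |(occurrences x b K v : ℝ) - K / (q : ℝ) ^ (r * L)| ≤ ε * K

/-- There is `d > 0` such that for all `D`, `r`, `q`, `L` and `ε > 0` and all large `B`, all but at most
`B exp (-(log B) ^ d)` of the bases `b ≤ B` are good. -/
theorem result : ∃ d : ℝ, 0 < d ∧ ∀ (D r q L : ℕ), 1 ≤ q → 1 ≤ L → ∀ ε : ℝ, 0 < ε →
    ∀ᶠ B : ℕ in atTop, ({b : ℕ | 0 < b ∧ b ≤ B ∧ ¬ Good d D r q L ε b}.ncard : ℝ) ≤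
      B * Real.exp (-(Real.log B ^ d)) :=
  Run7.h683.OB.final2

end Pool.Agent.Results.MP_5b6025_nt.OneBaseForAll
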