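import Mathlib
import Pool.Agent.Run7.h683.MR.Main

set_option autoImplicit false

/-!
# MP_5b6025_nt: all irrational algebraic numbers are normal in almost every mixed radix of primes `p_k ≤ (k + 2) ^ θ`

Question Q1 asks whether every irrational algebraic number is normal in some integer base `b`. Here the constant
sequence `b, b, b, …` of radices is replaced by a slowly growing sequence `p_0, p_1, p_2, …`: every real number has the
expansion `y = ⌊y⌋ + ∑ d_n / (p_0 p_1 ⋯ p_n)` with digits `0 ≤ d_n < p_n` (a Cantor series), and `y` is normal if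
the words of normalized digits `(d_n / p_n, d_(n+1) / p_(n+1), …, d_(n+L-1) / p_(n+L-1))` are equidistributed in the
cube, for every length `L`.

Let `θ > 1` and let `p_k` be independent random primes, `p_k` uniformly distributed on the primes up to
`(k + 2) ^ θ`. Then the following holds.

* (1) For all real numbers `x_1, …, x_r` none of whose nonzero integral combinations is very close to rational numbers
  (for instance: all nonzero integral combinations are irrational and no Liouville numbers) the numbers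
  `x_1, …, x_r` are almost surely jointly normal, and all exponential sums
  `∑_{n < N} e(∑_{l, i} h_{l,i} p_0 ⋯ p_(n+l-1) x_i)`, `h ≠ 0`, are `O(N ^ (1 - c))`, where `c > 0` depends on `θ` only.
* (2) Almost surely ALL tuples of real algebraic numbers which are linearly independent together with `1` are
  jointly normal; in particular almost surely all irrational algebraic numbers are normal.
* (3) So there is ONE sequence of primes `p_k ≤ (k + 2) ^ θ` in which all irrational algebraic numbers are normal, and all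
  tuples of algebraic numbers, linearly independent with `1`, are jointly normal.

Proof: for a fixed number `y` with `‖q y‖` not too small for `q < Q` the sum of `e(p p' y)` over the two last primes is
small (a bilinear sum, no Diophantine property of high multiples is needed). The number `y = p_0 ⋯ p_(n-1) x` has such
small multiples `‖q y‖` with small probability only: dividing by the last primes as long as possible one comes either to
a prime `p_i` which hits one of few fractions (probability about `1 / p_i`, and `∑ 1 / p_i` converges for `θ > 1`), or to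
a rational approximation of `x` itself by a denominator `exp (n ^ (1 - δ))` with an error `exp (- c n)`. The second moment
and the lemma of Borel and Cantelli give the result.
-/

namespace Pool.Agent.Results.MP_5b6025_nt.RandomMixedRadix

open Filter Topology MeasureTheory ProbabilityTheory

/-- the primes up to `(k + 2) ^ θ` -/
noncomputable def primes (θ : ℝ) (k : ℕ) : Finset ℕ := Nat.primesLE ⌊((k : ℝ) + 2) ^ θ⌋₊

/-- `p 0, p 1, …` are independent random primes, `p k` is uniformly distributed on the primes up to `(k + 2) ^ θ` -/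
structure RandomPrimes (θ : ℝ) {Ω : Type} [MeasurableSpace Ω] (P : Measure Ω) (p : ℕ → Ω → ℕ) : Prop where
  mem : ∀ k ω, p k ω ∈ primes θ k
  indep : iIndepFun p P
  uniform : ∀ k, ∀ q ∈ primes θ k, P.real {ω | p k ω = q} = 1 / ((primes θ k).card : ℝ)

/-- the product `p 0 ⋯ p (n - 1)` -/
def prod (p : ℕ → ℕ) (n : ℕ) : ℕ := ∏ k ∈ Finset.range n, p k

/-- the digit `d_n` of `y` in the mixed radix `p`: `y = ⌊y⌋ + ∑ d_n / (p 0 ⋯ p n)`, `0 ≤ d_n < p n` -/
noncomputable def digit (p : ℕ → ℕ) (y : ℝ) (n : ℕ) : ℕ := (⌊(prod p (n + 1) : ℝ) * y⌋ % (p n : ℤ)).toNat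

/-- the numbers `x i` are jointly normal in the mixed radix `p`: for every word length `L` the array of the
normalized digits `d_(n + l) / p (n + l)` of the numbers `x i`, `l < L`, is equidistributed (for all intervals
`[u l i, w l i)`, for instance `[a / q, (a + 1) / q)` for words of `q` classes of digits) -/
def JointlyNormal (p : ℕ → ℕ) {r : ℕ} (x : Fin r → ℝ) : Prop :=
  ∀ (L : ℕ) (u w : Fin L → Fin r → ℝ), (∀ l i, 0 ≤ u l i ∧ u l i ≤ w l i ∧ w l i ≤ 1) →
    Tendsto (fun N : ℕ => ((Finset.range N).filter (fun n : ℕ => ∀ (l : Fin L) (i : Fin r),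
      u l i * p (n + l) ≤ digit p (x i) (n + l) ∧ (digit p (x i) (n + l) : ℝ) < w l i * p (n + l))).card /
        (N : ℝ)) atTop (𝓝 (∏ l, ∏ i, (w l i - u l i)))

/-- the exponential sums for the words of the numbers `x i` are at most `N ^ (1 - c)` -/
def SmallSums (c : ℝ) (p : ℕ → ℕ) {r : ℕ} (x : Fin r → ℝ) : Prop :=
  ∀ (L : ℕ) (h : Fin L → Fin r → ℤ), h ≠ 0 → ∀ᶠ N : ℕ in atTop,
    ‖∑ n ∈ Finset.range N, Complex.exp (2 * Real.pi * Complex.I *
      ((∑ l : Fin L, ∑ i, (h l i : ℝ) * (prod p (n + l) * x i) : ℝ) : ℂ))‖ ≤ (N : ℝ) ^ (1 - c)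

/-- `y` is not too close to rational numbers: the distance of `D y` to the nearest integer is at least
`exp (- C (1 + log D) ^ κ)` for all `D ≥ 1` -/
def Tame (κ y : ℝ) : Prop :=
  ∃ C : ℝ, ∀ D : ℕ, 1 ≤ D → Real.exp (-(C * (1 + Real.log D) ^ κ)) ≤ |y * D - round (y * D)|

/-- the numbers `x i` and `1` are linearly independent over `ℚ` -/
def Independent {r : ℕ} (x : Fin r → ℝ) : Prop :=
  ∀ (m : ℤ) (g : Fin r → ℤ), (m : ℝ) + ∑ i, (g i : ℝ) * x i = 0 → g = 0

open Run7.h683.MR in
/-- Almost every mixed radix of primes `p_k ≤ (k + 2) ^ θ`, `θ > 1`, makes all irrational algebraic numbers normal. -/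
theorem result (θ : ℝ) (hθ : 1 < θ) :
    ∃ κ c : ℝ, 1 < κ ∧ 0 < c ∧
      (∀ (Ω : Type) [MeasurableSpace Ω] (P : Measure Ω) [IsProbabilityMeasure P] (p : ℕ → Ω → ℕ),
        RandomPrimes θ P p →
          -- (1) one family of real numbers
          (∀ (r : ℕ) (x : Fin r → ℝ), (∀ g : Fin r → ℤ, g ≠ 0 → Tame κ (∑ i, (g i : ℝ) * x i)) →
            ∀ᵐ ω ∂P, JointlyNormal (fun k => p k ω) x ∧ SmallSums c (fun k => p k ω) x) ∧
          -- (2) all families of algebraic numbers at once
          (∀ᵐ ω ∂P, (∀ (r : ℕ) (x : Fin r → ℝ), (∀ i, IsAlgebraic ℚ (x i)) → Independent x →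
              JointlyNormal (fun k => p k ω) x ∧ SmallSums c (fun k => p k ω) x) ∧
            ∀ y : ℝ, IsAlgebraic ℚ y → Irrational y → JointlyNormal (fun k => p k ω) (fun _ : Fin 1 => y))) ∧
      -- irrational numbers which are no Liouville numbers are not too close to rational numbers
      (∀ y : ℝ, Irrational y → ¬ Liouville y → Tame κ y) ∧
      -- such random primes exist
      (∃ (Ω : Type) (_ : MeasurableSpace Ω) (P : Measure Ω) (_ : IsProbabilityMeasure P) (p : ℕ → Ω → ℕ),
        RandomPrimes θ P p) ∧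
      -- (3) one sequence of primes for all algebraic numbers
      ∃ p : ℕ → ℕ, (∀ k, (p k).Prime ∧ (p k : ℝ) ≤ ((k : ℝ) + 2) ^ θ) ∧
        (∀ (r : ℕ) (x : Fin r → ℝ), (∀ i, IsAlgebraic ℚ (x i)) → Independent x →
          JointlyNormal p x ∧ SmallSums c p x) ∧
        ∀ y : ℝ, IsAlgebraic ℚ y → Irrational y → JointlyNormal p (fun _ : Fin 1 => y) := by
  obtain ⟨κ, c, hκ, hc, h⟩ := main.{0} (growth θ hθ)
  have hU : ∀ {Ω : Type} [MeasurableSpace Ω] {P : Measure Ω} [IsProbabilityMeasure P] {p : ℕ → Ω → ℕ},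
      RandomPrimes θ P p → Uniform P (Sk θ) p :=
    fun hp => uniform_of_indep hp.mem hp.indep hp.uniform
  have hone : ∀ (v : ℕ → ℕ), (∀ (r : ℕ) (x : Fin r → ℝ), (∀ i, IsAlgebraic ℚ (x i)) → Independent x →
      JointlyNormal v x ∧ SmallSums c v x) → ∀ y : ℝ, IsAlgebraic ℚ y → Irrational y →
        JointlyNormal v (fun _ : Fin 1 => y) := by
    intro v hv y hy hirr
    refine (hv 1 (fun _ => y) (fun _ => hy) ?_).1
    intro m g hg
    rw [Fin.sum_univ_one] at hg
    have h0 : g 0 = 0 := by
      by_contra hne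
      apply hirr
      have hne' : ((g 0 : ℤ) : ℝ) ≠ 0 := by exact_mod_cast hne
      refine ⟨-(m : ℚ) / (g 0 : ℚ), ?_⟩
      push_cast
      rw [div_eq_iff hne']
      linarith
    funext i
    rw [Subsingleton.elim i 0, h0]
    rfl
  have h2 : ∀ (Ω : Type) [MeasurableSpace Ω] (P : Measure Ω) [IsProbabilityMeasure P] (p : ℕ → Ω → ℕ),
      RandomPrimes θ P p → ∀ᵐ ω ∂P, (∀ (r : ℕ) (x : Fin r → ℝ), (∀ i, IsAlgebraic ℚ (x i)) → Independent x →
              JointlyNormal (fun k => p k ω) x ∧ SmallSums c (fun k => p k ω) x) := by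
    intro Ω _ P _ p hp
    exact main_algebraic (growth θ hθ) κ c hκ.le P p (h Ω P p (hU hp))
  have h4 : ∃ (Ω : Type) (_ : MeasurableSpace Ω) (P : Measure Ω) (_ : IsProbabilityMeasure P) (p : ℕ → Ω → ℕ),
        RandomPrimes θ P p := by
    obtain ⟨Ω, i1, P, i2, p, h5, h6, h7⟩ := exists_uniform (Sk θ) (growth θ hθ).ne
    exact ⟨Ω, i1, P, i2, p, ⟨h5, h6, h7⟩⟩
  refine ⟨κ, c, hκ, hc, ?_, ?_, h4, ?_⟩
  · intro Ω _ P _ p hp
    refine ⟨fun r x hx => h Ω P p (hU hp) r x hx, ?_⟩
    filter_upwards [h2 Ω P p hp] with ω hω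
    exact ⟨hω, hone _ hω⟩
  · intro y hy hL
    exact tame_of_not_liouville hy hL hκ.le
  · obtain ⟨Ω, i1, P, i2, p, hp⟩ := h4
    obtain ⟨ω, hω⟩ := (h2 Ω P p hp).exists
    refine ⟨fun k => p k ω, fun k => ?_, hω, hone _ hω⟩
    have h5 := hp.mem k ω
    unfold primes at h5
    rw [Nat.mem_primesLE] at h5
    refine ⟨h5.2, ?_⟩
    exact (Nat.le_floor_iff (by positivity)).1 h5.1

end Pool.Agent.Results.MP_5b6025_nt.RandomMixedRadix
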