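import Mathlib
import Pool.Agent.Run7.h103.UN.RothC

set_option autoImplicit false

/-!
# Algebraic numbers and predictable numbers: a uniform measure

At the scale `(M, K)` a real number `w` has a predictable multiple in base `b` if for some integers
`m ≠ 0`, `l`, `q ≥ 1` with `|m|` and `q` at most `H = e ^ (A (K + 1))` the number `(m w + l) / q` is
equal, up to `e ^ (- ε M) / q`, to a number whose first `M` digits in base `b` are predicted by some
automaton with at most `K` states, which reads the digits, with at most `A log (M / (K + 1))` errors.
Digits may be replaced by the differences between the digits and the letters of a fixed word of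
linear block complexity.

**Measure.** Let `β_1, ..., β_s` be real algebraic numbers which are linearly independent over `ℚ`,
and let `b_1, ..., b_k` be arbitrary bases, equal or not. For all `d`, `A` and `ε > 0` there is `R` such
that for `M ≥ R (K + 1)`, for ALL real numbers `x_i`, `|x_i| ≤ H`, which have predictable multiples in
the bases `b_i`, and for all integer polynomials `P_l` of degree at most `d` in each variable with
coefficients at most `H` and `|P_l (x)| ≥ 1 / H` for some `l`, one has
`|∑ β_l P_l (x_1, ..., x_k)| > e ^ (- ε M)`. For `β = (1, α)` this is a theorem of the type of Roth's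
theorem: `|Q (x) α - P (x)| > e ^ (- ε M)`.

**Sums and products.** Let `1, β_1, ..., β_s` be linearly independent real algebraic numbers, for
instance a basis of a real number field, and let `b`, `c` be arbitrary bases. For `M ≥ R (K + 1)` and
for all numbers `γ = (∑ m_j β_j + l) / q` with integers `m_j`, not all `0`, `l`, `q ≥ 1` of absolute
value at most `H`: the number `γ` has no predictable multiple in base `b`; for EVERY real number `t`
with `|t| ≤ H` the number `t` has no predictable multiple in base `b` or `t + γ` has none in base `c`;
and the same for `t` and `t γ` if moreover `|t| ≥ 1 / H`. The constant `R` does not depend on `t` and `γ`.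

Proof. For sequences of scales and numbers, the predicted numbers become in the residue field of the
ring of bounded germs of sequences limits of polynomials in represented germs, and these are linearly
disjoint from the real algebraic numbers; this comes from the subspace theorem with moving forms (see
`Pool.Agent.Run7.h103.UN`).
-/

namespace Pool.Agent.Results.MP_5b6025_nt.RothForPredictableNumbers

open Pool.Agent.Run7.h103.PF Pool.Agent.Run7.h103.UN

/-- (1) Let `β_1, ..., β_s` be real algebraic numbers which are linearly independent over `ℚ`, let
`b_1, ..., b_k ≥ 2` be integers and let `u_i` be a word of linear block complexity over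
`{0, ..., b_i - 1}`. For all `d`, `A` and `ε > 0` there is `R` such that for all `M`, `K` with
`R (K + 1) ≤ M`: if the real numbers `x_1, ..., x_k` have predictable multiples in base `b_i`
(`PredictableMultiple`) and absolute value at most `e ^ (A (K + 1))`, the integer polynomials
`P_1, ..., P_s` in `k` variables have degree at most `d` in each variable and coefficients at most
`e ^ (A (K + 1))`, and one of the numbers `P_l (x)` is at least `e ^ (- A (K + 1))` in absolute value,
then `|∑ β_l P_l (x)| > e ^ (- ε M)`.

(2) Let `β_1, ..., β_s` be real algebraic numbers such that `1, β_1, ..., β_s` are linearly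
independent over `ℚ`, let `b, c ≥ 2` be integers and let `u`, `v` be words of linear block complexity
over `{0, ..., b - 1}` and `{0, ..., c - 1}`. For all `A` and `ε > 0` there is `R` such that for all
`M`, `K` with `R (K + 1) ≤ M` and for all `γ = (∑ m_j β_j + l) / q` with integers `m_j`, not all `0`,
`l`, `q ≥ 1` of absolute value at most `e ^ (A (K + 1))` (`SmallCombination`): `γ` has no predictable
multiple in base `b`, and for all real `t` with `|t| ≤ e ^ (A (K + 1))`, `t` has no predictable
multiple in base `b` or `t + γ` has none in base `c`, and if moreover `|t| ≥ e ^ (- A (K + 1))`, then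
`t` has no predictable multiple in base `b` or `t γ` has none in base `c`. -/
theorem result :
    (∀ (s : ℕ) (β : Fin s → ℝ), (∀ l, IsAlgebraic ℚ (β l)) → LinearIndependent ℚ β →
      ∀ (k : ℕ) (b : Fin k → ℕ), (∀ i, 2 ≤ b i) → ∀ (C : ℝ) (u : Fin k → ℕ → ℤ),
      (∀ i, SimpleWord (b i) C (u i)) → ∀ (d : ℕ) (A ε : ℝ), 0 < ε →
      ∃ R : ℕ, ∀ M K : ℕ, R * (K + 1) ≤ M →
        ∀ (x : Fin k → ℝ) (a : Fin s → (Fin k → Fin (d + 1)) → ℤ),
          (∀ i, PredictableMultiple (b i) (u i) A ε M K (x i)) →
          (∀ i, |x i| ≤ Real.exp (A * (K + 1))) → (∀ l, SmallCoeff A K (a l)) →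
          (∃ l, Real.exp (-(A * (K + 1))) ≤ |value (a l) x|) →
          Real.exp (-(ε * M)) < |∑ l, β l * value (a l) x|) ∧
    (∀ (s : ℕ) (β : Fin s → ℝ), (∀ l, IsAlgebraic ℚ (β l)) →
      LinearIndependent ℚ (Fin.cons 1 β : Fin (s + 1) → ℝ) →
      ∀ b c : ℕ, 2 ≤ b → 2 ≤ c → ∀ (C : ℝ) (u v : ℕ → ℤ), SimpleWord b C u → SimpleWord c C v →
      ∀ A ε : ℝ, 0 < ε →
      ∃ R : ℕ, ∀ M K : ℕ, R * (K + 1) ≤ M → ∀ γ : ℝ, SmallCombination β A K γ →
        ¬ PredictableMultiple b u A ε M K γ ∧
        ∀ t : ℝ, |t| ≤ Real.exp (A * (K + 1)) →
          (¬ PredictableMultiple b u A ε M K t ∨ ¬ PredictableMultiple c v A ε M K (t + γ)) ∧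
          (Real.exp (-(A * (K + 1))) ≤ |t| →
            ¬ PredictableMultiple b u A ε M K t ∨
            ¬ PredictableMultiple c v A ε M K (t * γ))) := by
  refine ⟨fun s β halg hβ k b hb C u hu d A ε hε => ?_,
    fun s β halg hβ b c hb hc C u v hu hv A ε hε =>
      sums_products β halg hβ hb hc u v hu hv A hε⟩
  obtain ⟨R, -, hR⟩ := roth_all β halg hβ b hb u hu d A hε
  exact ⟨R, hR⟩

end Pool.Agent.Results.MP_5b6025_nt.RothForPredictableNumbers
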