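import Pool.Agent.Run7.h614.NV.Per
import Pool.Agent.Run7.h614.NM.Words

/-! # Normality is decided by one inequality for every lag

Let `V z = ({z} - 1 / 2) ^ 2`. Its mean over an equidistributed sequence is `1 / 12`, and
`V z - 1 / 12 = ∑_(k ≥ 1) cos (2 π k z) / (π k) ^ 2` is positive definite. Hence the second moments
`V` of the differences of a sequence at a few lags control its distribution:

* a real number `x` is normal in base `b` if and only if for some infinite set `D` of natural numbers,
  and all `i < j` in `D`, the mean of `V ((b ^ (j - i) - 1) b ^ n x)` has upper limit at most `1 / 12`;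
  then the mean tends to `1 / 12` for all lags `g ≥ 1`. Note that `(b ^ g - 1) b ^ n x` is modulo one
  the difference of the numbers `0.a_(n+g+1) a_(n+g+2) …` and `0.a_(n+1) a_(n+2) …` of the digits
  of `x`. There is one inequality for every lag, and the lags may be as sparse as `i! - j!`.
* in terms of digits: `x` is normal in base `b` if and only if for every `l` there is an infinite set
  `D` such that for all `i < j` in `D` the words of length `l` at the places `n` and `n + (j - i)`
  coincide with upper frequency at most `b ^ (-l)`.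
* a one-sided form of van der Corput's difference theorem for arbitrary real sequences, with an
  explicit finite inequality.
-/

set_option autoImplicit false

open Filter Topology

namespace Pool.Agent.Results.MP_5b6025_nt.TwoPointCriterion

/-- the `n`-th digit after the point of `x` in base `b` -/
noncomputable def digit (b : ℕ) (x : ℝ) (n : ℕ) : ℤ := ⌊x * (b : ℝ) ^ n⌋ % b

open Classical in
/-- the number of the `n < N` with the property `P` -/
noncomputable def count (P : ℕ → Prop) (N : ℕ) : ℕ := ((Finset.range N).filter P).card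

/-- `x` is normal in base `b`: every word `w` of `k ≥ 1` digits stands with frequency `b ^ (-k)` at the
places `n + 1, …, n + k` -/
def Normal (b : ℕ) (x : ℝ) : Prop := ∀ k : ℕ, 0 < k → ∀ w : Fin k → Fin b,
  Tendsto (fun N : ℕ => (count (fun n => ∀ j : Fin k, digit b x (n + 1 + j) = ((w j : ℕ) : ℤ)) N : ℝ) / N)
    atTop (𝓝 (1 / (b : ℝ) ^ k))

/-- the upper limit of the means `(f 0 + ⋯ + f (N - 1)) / N` is at most `c` -/
def MeanLe (f : ℕ → ℝ) (c : ℝ) : Prop :=
  ∀ ε : ℝ, 0 < ε → ∀ᶠ N : ℕ in atTop, ∑ n ∈ Finset.range N, f n ≤ (c + ε) * N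

/-- the upper frequency of the property `P` is at most `c` -/
def FreqLe (P : ℕ → Prop) (c : ℝ) : Prop :=
  ∀ ε : ℝ, 0 < ε → ∀ᶠ N : ℕ in atTop, (count P N : ℝ) ≤ (c + ε) * N

/-- `({z} - 1 / 2) ^ 2` -/
noncomputable def V (z : ℝ) : ℝ := (Int.fract z - 1 / 2) ^ 2

/-- the words of length `l` at the places `n` and `n + g` of the expansion of `x` are equal -/
def Coincide (b : ℕ) (x : ℝ) (l g n : ℕ) : Prop :=
  ∀ t : Fin l, digit b x (n + 1 + t) = digit b x (n + g + 1 + t)

lemma count_eq (P : ℕ → Prop) [DecidablePred P] (N : ℕ) :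
    count P N = ((Finset.range N).filter P).card := by
  unfold count
  congr 1
  ext n
  simp only [Finset.mem_filter]

lemma coin_count (b : ℕ) (x : ℝ) (l g N : ℕ)
    [DecidablePred fun n : ℕ => ∀ t : Fin l, Pool.Agent.Run7.h614.NM.digit b x (n + 1 + t) =
      Pool.Agent.Run7.h614.NM.digit b x (n + g + 1 + t)] :
    count (Coincide b x l g) N = ((Finset.range N).filter fun n : ℕ => ∀ t : Fin l,
      Pool.Agent.Run7.h614.NM.digit b x (n + 1 + t) =
        Pool.Agent.Run7.h614.NM.digit b x (n + g + 1 + t)).card := by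
  unfold count
  congr 1
  ext n
  simp only [Finset.mem_filter]
  exact Iff.rfl

lemma normal_eq (b : ℕ) (x : ℝ) : Normal b x ↔ Pool.Agent.Run7.h614.NM.Normal b x := by
  classical
  unfold Normal Pool.Agent.Run7.h614.NM.Normal
  refine forall_congr' fun k => forall_congr' fun _ => forall_congr' fun w => ?_
  simp only [count_eq]
  exact Iff.rfl

/-- (1) `x` is normal in base `b` if and only if for some infinite set `D` and all `i < j` in `D` the
mean of `V ((b ^ (j - i) - 1) b ^ n x)` has upper limit at most `1 / 12`; if `x` is normal, then this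
mean tends to `1 / 12` for every lag `g ≥ 1` in place of `j - i`.

(2) `x` is normal in base `b` if and only if for every `l ≥ 1` there is an infinite set `D` such that
for all `i < j` in `D` the words of length `l` at the distance `j - i` coincide with upper frequency at
most `b ^ (-l)`; if `x` is normal, then they coincide with frequency `b ^ (-l)` for every distance.

(3) Any real sequence `y` such that for some infinite set `D` and all `i < j` in `D` the mean of
`V (y (n + j) - y (n + i))` has upper limit at most `1 / 12` is equidistributed modulo one.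

(4) The finite form of (3), for every finite set `T` of places. -/
theorem result :
    (∀ b : ℕ, 2 ≤ b → ∀ x : ℝ,
      (Normal b x ↔ ∃ D : Set ℕ, D.Infinite ∧ ∀ i ∈ D, ∀ j ∈ D, i < j →
        MeanLe (fun n => V (((b : ℝ) ^ (j - i) - 1) * ((b : ℝ) ^ n * x))) (1 / 12)) ∧
      (Normal b x → ∀ g : ℕ, 1 ≤ g → Tendsto (fun N : ℕ =>
        (∑ n ∈ Finset.range N, V (((b : ℝ) ^ g - 1) * ((b : ℝ) ^ n * x))) / N) atTop (𝓝 (1 / 12)))) ∧
    (∀ b : ℕ, 2 ≤ b → ∀ x : ℝ,
      (Normal b x ↔ ∀ l : ℕ, 1 ≤ l → ∃ D : Set ℕ, D.Infinite ∧ ∀ i ∈ D, ∀ j ∈ D, i < j →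
        FreqLe (Coincide b x l (j - i)) (1 / (b : ℝ) ^ l)) ∧
      (Normal b x → ∀ l g : ℕ, 1 ≤ g → Tendsto (fun N : ℕ =>
        (count (Coincide b x l g) N : ℝ) / N) atTop (𝓝 (1 / (b : ℝ) ^ l)))) ∧
    (∀ (y : ℕ → ℝ) (D : Set ℕ), D.Infinite → (∀ i ∈ D, ∀ j ∈ D, i < j →
        MeanLe (fun n => V (y (n + j) - y (n + i))) (1 / 12)) →
      ∀ s t : ℝ, 0 ≤ s → s ≤ t → t ≤ 1 → Tendsto (fun N : ℕ =>
        (count (fun n => s ≤ Int.fract (y n) ∧ Int.fract (y n) < t) N : ℝ) / N) atTop
        (𝓝 (t - s))) ∧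
    (∀ (y : ℕ → ℝ) (T : Finset ℕ) (k N : ℕ), 1 ≤ k →
      T.card * ‖∑ n ∈ Finset.range N, Complex.exp (2 * Real.pi * Complex.I * ((k * y n : ℝ) : ℂ))‖ ≤
        2 * ∑ h ∈ T, (h : ℝ) + k * Real.pi * √(N * ∑ h ∈ T, ∑ h' ∈ T, ∑ n ∈ Finset.range N,
          (V (y (n + h) - y (n + h')) - 1 / 12))) := by
  classical
  refine ⟨fun b hb x => ⟨⟨fun h => ?_, ?_⟩, fun h g hg => ?_⟩,
    fun b hb x => ⟨⟨fun h l hl => ?_, fun h => ?_⟩, fun h l g hg => ?_⟩, fun y D hD h s t hs hst ht => ?_,
    fun y T k N hk => ?_⟩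
  · rw [normal_eq, Pool.Agent.Run7.h614.NM.normal_iff_ud hb] at h
    refine ⟨Set.univ, Set.infinite_univ, fun i _ j _ hij ε hε => ?_⟩
    have h1 := Pool.Agent.Run7.h614.NV.mean_lag hb (show 1 ≤ j - i by omega) h
    filter_upwards [h1.eventually (gt_mem_nhds (show (1 : ℝ) / 12 < 1 / 12 + ε by linarith)),
      eventually_ge_atTop 1] with N hN hN1
    have hN0 : (0 : ℝ) < N := by exact_mod_cast hN1
    rw [div_lt_iff₀ hN0] at hN
    exact hN.le
  · rintro ⟨D, hD, h⟩
    rw [normal_eq, Pool.Agent.Run7.h614.NM.normal_iff_ud hb]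
    exact Pool.Agent.H534R3.UDist.ud_of_weyl _ (Pool.Agent.Run7.h614.NV.weyl_orbit x D hD h)
  · rw [normal_eq, Pool.Agent.Run7.h614.NM.normal_iff_ud hb] at h
    exact Pool.Agent.Run7.h614.NV.mean_lag hb hg h
  · rw [normal_eq] at h
    refine ⟨Set.univ, Set.infinite_univ, fun i _ j _ hij ε hε => ?_⟩
    have h1 := Pool.Agent.Run7.h614.NV.coin_of_normal hb h l (j - i) (by omega)
    filter_upwards [h1.eventually (gt_mem_nhds
      (show 1 / (b : ℝ) ^ l < 1 / (b : ℝ) ^ l + ε by linarith)),
      eventually_ge_atTop 1] with N hN hN1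
    have hN0 : (0 : ℝ) < N := by exact_mod_cast hN1
    rw [div_lt_iff₀ hN0] at hN
    rw [coin_count]
    exact hN.le
  · rw [normal_eq]
    refine Pool.Agent.Run7.h614.NV.normal_of_coin hb x fun l hl => ?_
    obtain ⟨D, hD, hDl⟩ := h l hl
    refine ⟨D, hD, fun i hi j hj hij ε hε => ?_⟩
    filter_upwards [hDl i hi j hj hij ε hε] with N hN
    rw [coin_count] at hN
    exact hN
  · rw [normal_eq] at h
    have h1 := Pool.Agent.Run7.h614.NV.coin_of_normal hb h l g hg
    simp only [coin_count]
    exact h1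
  · have h1 := Pool.Agent.H534R3.UDist.ud_of_weyl y
      (Pool.Agent.Run7.h614.NV.weyl_of_V y D hD h) s t hs hst ht
    simp only [count_eq]
    exact h1
  · exact Pool.Agent.Run7.h614.NV.vdcV y T k N hk

end Pool.Agent.Results.MP_5b6025_nt.TwoPointCriterion
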